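import Mathlib
import Pool.Agent.Helper56.LD.Goals

/-!
Packets CO17, CO18, CO19, CO20 for MP_0152c0_gt.
-/

set_option autoImplicit false

namespace Pool.Agent.Helper9.LD

open Pool.Agent.Helper56.LD

theorem not_main_iff (l : Lab) : ¬ IsMain l ↔ IsAux l := by
  unfold IsMain IsAux
  rcases l with τ | q
  · simp
  · simp

theorem main_or_aux (l : Lab) : IsMain l ∨ IsAux l := by
  by_cases h : IsMain l
  · exact Or.inl h
  · exact Or.inr ((not_main_iff l).1 h)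

theorem mu_congr {n N : ℕ} {a a' : ℕ → Lab} (h : ∀ j, n ≤ j → a j = a' j) (hN : n ≤ N) :
    mu N a = mu N a' := by
  funext l
  unfold mu
  rw [h _ (le_trans hN (le_max_right _ _))]

theorem mainC_congr {N : ℕ} {a a' : ℕ → Lab} (e : ℕ → Lab) (h : mu N a = mu N a') :
    MainC N a e ↔ MainC N a' e := by
  unfold MainC MainI QQ
  rw [h]

theorem isN_congr {n : ℕ} {a a' : ℕ → Lab} (h : ∀ j, n ≤ j → a j = a' j) (N : ℕ) :
    IsN n a N ↔ IsN n a' N := by
  unfold IsN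
  constructor
  · rintro ⟨h1, h2, h3⟩
    exact ⟨h1, (h N h1) ▸ h2, fun j hj1 hj2 => (h j hj1) ▸ h3 j hj1 hj2⟩
  · rintro ⟨h1, h2, h3⟩
    exact ⟨h1, (h N h1).symm ▸ h2, fun j hj1 hj2 => (h j hj1).symm ▸ h3 j hj1 hj2⟩

theorem stail : StmtStail := by
  intro n a a' h
  ext e
  unfold SS
  show (_ ∧ _ ∧ _) ↔ (_ ∧ _ ∧ _)
  constructor
  · rintro ⟨h1, h2, h3⟩
    refine ⟨h1, fun N hN => ?_, fun κ τ hk => ?_⟩
    · exact (mainC_congr e (mu_congr h hN.1)).1 (h2 N ((isN_congr h N).2 hN))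
    · exact h3 κ τ (by rw [h n le_rfl]; exact hk)
  · rintro ⟨h1, h2, h3⟩
    refine ⟨h1, fun N hN => ?_, fun κ τ hk => ?_⟩
    · exact (mainC_congr e (mu_congr h hN.1)).2 (h2 N ((isN_congr h N).1 hN))
    · exact h3 κ τ (by rw [← h n le_rfl]; exact hk)

theorem isN_unique {n : ℕ} {a : ℕ → Lab} {N N' : ℕ} (h : IsN n a N) (h' : IsN n a N') :
    N = N' := by
  obtain ⟨h1, h2, h3⟩ := h
  obtain ⟨h1', h2', h3'⟩ := h'
  rcases lt_trichotomy N N' with hlt | heq | hgt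
  · exact absurd h2 ((not_main_iff _).2 (h3' N h1 hlt))
  · exact heq
  · exact absurd h2' ((not_main_iff _).2 (h3 N' h1' hgt))

theorem mainC_self {N : ℕ} {a : ℕ → Lab} (hm : ∀ l, IsMain (mu N a l)) : MainC N a (mu N a) := by
  refine ⟨fun _ l => rfl, fun i _ _ => ⟨fun l _ => rfl, ?_⟩⟩
  by_cases h : 4 ^ (i + 2) - N ≤ 4 ^ i
  · exact Or.inl ⟨h, Or.inl (fun l _ _ => rfl)⟩
  · exact Or.inr ⟨not_le.1 h, fun l _ _ => rfl, hm _⟩

theorem const_mem : (fun _ => Sum.inl 0 : ℕ → Lab) ∈ ES := by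
  intro j
  show Tr (j + 1) (Sum.inl 0) (Sum.inl 0)
  exact Or.inl rfl

theorem sne (hMu : StmtMu) : StmtSne := by
  intro n a hn ha
  by_cases hN : ∃ N, IsN n a N
  · obtain ⟨N, hN⟩ := hN
    obtain ⟨m1, m2, _, _⟩ := hMu a ha N hN.2.1
    refine ⟨mu N a, m1, fun N' hN' => ?_, fun κ τ _ => Or.inl (m2 0)⟩
    rw [← isN_unique hN hN']
    exact mainC_self m2
  · refine ⟨fun _ => Sum.inl 0, const_mem, fun N' hN' => absurd ⟨N', hN'⟩ hN,
      fun κ τ _ => Or.inl ⟨0, rfl⟩⟩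

theorem auxOK_of {k' n : ℕ} (hn : 8 * k' + 8 ≤ n) {e' : ℕ → Lab}
    (hmain : ∀ j, k' ≤ j → IsMain (e' j)) (κ : Bool) (τ : Fin 3) : AuxOK n κ τ e' := by
  classical
  by_cases h0 : IsMain (e' 0)
  · exact Or.inl h0
  obtain ⟨⟨κ', t⟩, hq⟩ := (not_main_iff _).1 h0
  by_cases hk : κ' = !κ
  · subst hk
    exact Or.inr (Or.inl ⟨t, hq⟩)
  refine Or.inr (Or.inr ?_)
  have hex : ∃ ν, IsMain (e' ν) := ⟨k', hmain k' le_rfl⟩
  set ν := Nat.find hex with hν
  have hν1 : IsMain (e' ν) := Nat.find_spec hex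
  have hν2 : ∀ j < ν, IsAux (e' j) := fun j hj => (not_main_iff _).1 (Nat.find_min hex hj)
  have hνk : ν ≤ k' := Nat.find_min' hex (hmain k' le_rfl)
  have hex2 : ∃ k, ν ≤ 2 ^ k := ⟨ν, (Nat.lt_two_pow_self).le⟩
  set k := Nat.find hex2 with hkdef
  have hk1 : ν ≤ 2 ^ k := Nat.find_spec hex2
  have hk2 : ∀ k' < k, 2 ^ k' < ν := fun j hj => not_le.1 (Nat.find_min hex2 hj)
  refine ⟨ν, k, ⟨hν1, hν2⟩, ⟨hk1, hk2⟩, Or.inl ?_⟩
  rcases Nat.eq_zero_or_pos k with hk0 | hkp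
  · rw [hk0]; norm_num; omega
  · have h3 := hk2 (k - 1) (by omega)
    have h4 : 2 ^ (k + 1) = 4 * 2 ^ (k - 1) := by
      obtain ⟨m, hm⟩ : ∃ m, k = m + 1 := ⟨k - 1, by omega⟩
      rw [hm]
      simp only [Nat.add_sub_cancel]
      ring
    rw [h4]
    omega

theorem c5 (hExt : StmtExt) : StmtC5 := by
  intro k
  obtain ⟨K0, hK0⟩ := hExt (k + 1)
  refine ⟨max K0 (8 * (k + 1) + 8), fun n hn a ha e he => ?_⟩
  have hn1 : K0 ≤ n := le_trans (le_max_left _ _) hn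
  have hn2 : 8 * (k + 1) + 8 ≤ n := le_trans (le_max_right _ _) hn
  by_cases hN : ∃ N, IsN n a N
  · obtain ⟨N, hN⟩ := hN
    obtain ⟨e', he', hC, hag, hmain⟩ := hK0 N (le_trans hn1 hN.1) a ha hN.2.1 e he
    refine ⟨e', ⟨he', fun N' hN' => ?_, fun κ τ _ => auxOK_of hn2 hmain κ τ⟩,
      fun j hj => hag j (by omega)⟩
    rw [← isN_unique hN hN']
    exact hC
  · obtain ⟨e', he', hC, hag, hmain⟩ := hK0 K0 le_rfl _ const_mem ⟨0, rfl⟩ e he
    exact ⟨e', ⟨he', fun N' hN' => absurd ⟨N', hN'⟩ hN, fun κ τ _ => auxOK_of hn2 hmain κ τ⟩,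
      fun j hj => hag j (by omega)⟩

/-- constancy between powers of four. -/
theorem const_between {f : ℕ → Fin 4} {N : ℕ}
    (hf : ∀ j, N ≤ j → f j = f (j + 1) ∨ (f j = f (j + 1) + 1 ∧ ∃ i : ℕ, j + 1 = 4 ^ i))
    (m p q : ℕ) (hNp : N ≤ p) (hp : 4 ^ m ≤ p) (hpq : p ≤ q) (hq : q < 4 ^ (m + 1)) :
    f p = f q := by
  induction q, hpq using Nat.le_induction with
  | base => rfl
  | succ q hpq ih =>
    rw [ih (by omega)]
    rcases hf q (by omega) with h | ⟨_, i, hi⟩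
    · exact h
    · exfalso
      have h1 : 4 ^ m < 4 ^ i := by omega
      have h2 : 4 ^ i < 4 ^ (m + 1) := by omega
      have h3 := (Nat.pow_lt_pow_iff_right (by norm_num : 1 < 4)).1 h1
      have h4 := (Nat.pow_lt_pow_iff_right (by norm_num : 1 < 4)).1 h2
      omega

theorem exists_pow_four (N : ℕ) (hN : 1 ≤ N) : ∃ i, 4 ^ i ≤ N ∧ N < 4 ^ (i + 1) :=
  ⟨Nat.log 4 N, Nat.pow_log_le_self 4 (by omega), Nat.lt_pow_succ_log_self (by norm_num) N⟩

theorem fin4_aux : ∀ σ ρ : Fin 4, (σ = ρ ∨ σ = ρ + 1 ∨ σ = ρ + 1 + 1) → σ = ρ - 1 → False := by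
  decide

theorem c6 (hES : StmtES) : StmtC6 := by
  classical
  intro a ha hmem
  obtain ⟨_, _, hup, hdown, _⟩ := hES
  obtain ⟨_, hMain, hAux⟩ := hmem
  by_cases hN : ∃ N, IsN 1 a N
  · obtain ⟨N, hN⟩ := hN
    obtain ⟨hN1, hN2, hN3⟩ := hN
    have hC := hMain N ⟨hN1, hN2, hN3⟩
    have hclaim : a N = mu N a N := by
      rcases le_or_gt N 4 with h4 | h4
      · exact hC.1 h4 N
      · obtain ⟨i, hi1, hi2⟩ : ∃ i, 4 ^ (i + 1) < N ∧ N ≤ 4 ^ (i + 2) := by
          obtain ⟨i, hi1, hi2⟩ := exists_pow_four (N - 1) (by omega)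
          rcases Nat.eq_zero_or_pos i with h0 | h0
          · subst h0; norm_num at hi2; omega
          · obtain ⟨m, rfl⟩ : ∃ m, i = m + 1 := ⟨i - 1, by omega⟩
            exact ⟨m, by omega, by
              have : m + 1 + 1 = m + 2 := by ring
              rw [this] at hi2; omega⟩
        have := (hC.2 i hi1 hi2).1 N (by
          have : 4 ^ (i + 1) = 4 * 4 ^ i := by ring
          have h5 : 0 < 4 ^ i := by positivity
          omega)
        exact this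
    have hmain : ∀ j, N ≤ j → IsMain (a j) := fun j hj => hup a ha N j hj hN2
    choose! f hf using hmain
    have hstep : ∀ j, N ≤ j → f j = f (j + 1) ∨
        (f j = f (j + 1) + 1 ∧ ∃ i : ℕ, j + 1 = 4 ^ i) := by
      intro j hj
      have h1 := ha j
      rw [hf j hj, hf (j + 1) (by omega)] at h1
      exact h1
    obtain ⟨i, hi1, hi2⟩ := exists_pow_four N hN1
    have e2 : 4 ^ (i + 2) = 4 * 4 ^ (i + 1) := by ring
    have e3 : 4 ^ (i + 2 + 1) = 16 * 4 ^ (i + 1) := by ring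
    have e1 : 4 ^ (i + 1) = 4 * 4 ^ i := by ring
    have hp : 0 < 4 ^ i := by positivity
    have s1 : f N = f (4 ^ (i + 1) - 1) :=
      const_between hstep i N _ le_rfl hi1 (by omega) (by omega)
    have s2 : f (4 ^ (i + 1) - 1) = f (4 ^ (i + 1)) ∨
        f (4 ^ (i + 1) - 1) = f (4 ^ (i + 1)) + 1 := by
      have h1 := hstep (4 ^ (i + 1) - 1) (by omega)
      rw [show 4 ^ (i + 1) - 1 + 1 = 4 ^ (i + 1) by omega] at h1
      rcases h1 with h1 | ⟨h1, _⟩
      · exact Or.inl h1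
      · exact Or.inr h1
    have s3 : f (4 ^ (i + 1)) = f (4 ^ (i + 2) - 1) :=
      const_between hstep (i + 1) _ _ (by omega) le_rfl (by omega) (by
        have : i + 1 + 1 = i + 2 := by ring
        rw [this]; omega)
    have s4 : f (4 ^ (i + 2) - 1) = f (4 ^ (i + 2)) ∨
        f (4 ^ (i + 2) - 1) = f (4 ^ (i + 2)) + 1 := by
      have h1 := hstep (4 ^ (i + 2) - 1) (by omega)
      rw [show 4 ^ (i + 2) - 1 + 1 = 4 ^ (i + 2) by omega] at h1
      rcases h1 with h1 | ⟨h1, _⟩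
      · exact Or.inl h1
      · exact Or.inr h1
    have s5 : f (4 ^ (i + 2)) = f (16 * N + 4) :=
      const_between hstep (i + 2) _ _ (by omega) le_rfl (by omega) (by omega)
    have s6 : f N = f (16 * N + 4) - 1 := by
      have h1 : mu N a N = Sum.inl (f (16 * N + 4) - 1) := by
        unfold mu
        rw [max_eq_left (by omega), hf (16 * N + 4) (by omega)]
        rfl
      rw [h1, hf N le_rfl] at hclaim
      exact Sum.inl.inj hclaim
    have key : f N = f (16 * N + 4) ∨ f N = f (16 * N + 4) + 1 ∨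
        f N = f (16 * N + 4) + 1 + 1 := by
      rw [s1, ← s5]
      rcases s2 with s2 | s2 <;> rcases s4 with s4 | s4 <;> rw [s2, s3, s4] <;> simp
    exact fin4_aux _ _ key s6
  · have haux : ∀ j, 1 ≤ j → IsAux (a j) := by
      intro j hj
      by_contra hcon
      have hm : IsMain (a j) := by
        rcases main_or_aux (a j) with h | h
        · exact h
        · exact absurd h hcon
      have hex : ∃ m, 1 ≤ m ∧ IsMain (a m) := ⟨j, hj, hm⟩
      exact hN ⟨Nat.find hex, (Nat.find_spec hex).1, (Nat.find_spec hex).2, fun l hl1 hl2 =>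
        (not_main_iff _).1 (fun hl => Nat.find_min hex hl2 ⟨hl1, hl⟩)⟩
    obtain ⟨⟨κ, τ⟩, h1⟩ := haux 1 le_rfl
    obtain ⟨t, h0⟩ := hdown a ha 0 1 κ τ (by omega) h1
    rcases hAux κ τ h1 with h | ⟨t', h⟩ | ⟨ν, k, hν, _⟩
    · obtain ⟨s, hs⟩ := h
      rw [h0] at hs
      cases hs
    · rw [h0] at h
      have := congrArg Prod.fst (Sum.inr.inj h)
      simp at this
    · rcases Nat.eq_zero_or_pos ν with hz | hz
      · subst hz
        obtain ⟨s, hs⟩ := hν.1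
        rw [h0] at hs
        cases hs
      · exact ((not_main_iff _).2 (haux ν hz)) hν.1

end Pool.Agent.Helper9.LD
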